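import Pool.Agent.Helper72.GP.GoalsB

/-!
Project GP, packet BASE.
-/

set_option autoImplicit false

namespace Pool.Agent.Helper15.GP

open Pool.Agent.Helper72.GP
open Finset Polynomial
open scoped Polynomial.Bivariate Classical

theorem core (s n δ m e u : ℝ) (hs : 1 ≤ s) (hn : 1 ≤ n) (hδ : 0 < δ) (hm : 0 < m)
    (hme : m ≤ n ^ e) (hsu : s ≤ n ^ u) (hu : u / 4 + e * (6 * δ) ≤ 1 / 4 - δ / 16) :
    s ^ 2 ≤ s ^ ((7 : ℝ) / 4) * n ^ ((1 : ℝ) / 4 - δ / 16) * m ^ (-(6 * δ)) := by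
  have hs0 : 0 < s := by linarith
  have hn0 : 0 < n := by linarith
  have h1 : s ^ 2 = s ^ ((7 : ℝ) / 4) * s ^ ((1 : ℝ) / 4) := by
    rw [← Real.rpow_add hs0, ← Real.rpow_natCast]
    norm_num
  have h2 : s ^ ((1 : ℝ) / 4) ≤ n ^ (u / 4) := by
    have h3 : s ^ ((1 : ℝ) / 4) ≤ (n ^ u) ^ ((1 : ℝ) / 4) :=
      Real.rpow_le_rpow hs0.le hsu (by norm_num)
    rw [← Real.rpow_mul hn0.le] at h3
    have h4 : u * (1 / 4) = u / 4 := by ring
    rwa [h4] at h3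
  have h3 : n ^ (-(e * (6 * δ))) ≤ m ^ (-(6 * δ)) := by
    have h4 : (n ^ e) ^ (-(6 * δ)) ≤ m ^ (-(6 * δ)) :=
      Real.rpow_le_rpow_of_nonpos hm hme (by linarith)
    rw [← Real.rpow_mul hn0.le] at h4
    have h5 : e * -(6 * δ) = -(e * (6 * δ)) := by ring
    rwa [h5] at h4
  have h4 : n ^ (u / 4) ≤ n ^ ((1 : ℝ) / 4 - δ / 16) * n ^ (-(e * (6 * δ))) := by
    rw [← Real.rpow_add hn0]
    exact Real.rpow_le_rpow_of_exponent_le hn (by linarith)
  rw [h1, mul_assoc]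
  refine mul_le_mul_of_nonneg_left ?_ (Real.rpow_nonneg hs0.le _)
  refine h2.trans (h4.trans ?_)
  exact mul_le_mul_of_nonneg_left h3 (Real.rpow_nonneg hn0.le _)

theorem base : BASE := by
  intro P h x δ Yr hx hδ _ hh hY hY1
  have hxc : x ∈ cls P h x := by
    unfold cls
    rw [Finset.mem_filter]
    refine ⟨hx, ?_⟩
    have : gd x x = 0 := by simp [gd]
    rw [this]
    exact dvd_zero _
  have hs : (1 : ℝ) ≤ ((cls P h x).card : ℝ) := by
    have : 1 ≤ (cls P h x).card := Finset.card_pos.mpr ⟨x, hxc⟩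
    exact_mod_cast this
  have hn : (1 : ℝ) ≤ (P.card : ℝ) := by
    have : 1 ≤ P.card := Finset.card_pos.mpr ⟨x, hx⟩
    exact_mod_cast this
  have hn0 : (0 : ℝ) < (P.card : ℝ) := by linarith
  have hF : (Fh P (Yr ^ 2) h x : ℝ) ≤ ((cls P h x).card : ℝ) ^ 2 := by
    have : Fh P (Yr ^ 2) h x ≤ (cls P h x).card ^ 2 := by
      unfold Fh
      refine (Finset.card_filter_le _ _).trans ?_
      rw [Finset.card_product, sq]
    exact_mod_cast this
  have hh' : (1 : ℝ) ≤ (h : ℝ) := by exact_mod_cast hh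
  have hY2 : (1 : ℝ) < Yr ^ 2 := one_lt_pow₀ hY1 (by norm_num)
  have hm : 0 < min (h : ℝ) (Yr ^ 2) := lt_min (by linarith) (by linarith)
  refine ⟨fun h1 => ?_, fun hhY h1 => ?_⟩
  · refine hF.trans ?_
    unfold Rh
    refine core _ _ δ _ (1 / 48) (1 - δ) hs hn hδ hm ?_ h1 (by linarith)
    refine (min_le_right _ _).trans (le_of_eq ?_)
    rw [hY, ← Real.rpow_natCast, ← Real.rpow_mul hn0.le]
    norm_num
  · refine hF.trans ?_
    unfold Rh
    refine core _ _ δ _ (1 / 96) (1 - δ / 2) hs hn hδ hm ?_ h1.le (by linarith)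
    refine (min_le_left _ _).trans ?_
    rw [← hY]
    exact hhY.le

end Pool.Agent.Helper15.GP
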