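import Pool.Agent.Helper72.GP.Goals

/-!
Project GP, packet CIII.
-/

set_option autoImplicit false

namespace Pool.Agent.Helper15.GP

open Pool.Agent.Helper72.GP
open Finset Polynomial
open scoped Polynomial.Bivariate Classical

/-- counting in two stages -/
theorem count2 {α β γ : Type} [Fintype α] [Fintype β] (Q : α × β → Prop) (f : α → γ)
    (T : Finset γ) (A B : ℕ) (h1 : ∀ ω, Q ω → f ω.1 ∈ T)
    (h2 : ∀ g ∈ T, Nat.card {a // f a = g} ≤ A) (h3 : ∀ a, Nat.card {b // Q (a, b)} ≤ B) :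
    Nat.card {ω // Q ω} ≤ B * A * T.card := by
  have e1 : Nat.card {ω // Q ω} = (Finset.univ.filter Q).card := by
    rw [Nat.card_eq_fintype_card, Fintype.card_subtype]
  rw [e1]
  refine Finset.card_le_mul_card_image_of_maps_to (f := fun ω : α × β => f ω.1)
    (fun ω hω => h1 ω (Finset.mem_filter.mp hω).2) _ (fun g hg => ?_)
  have h4 : (Finset.univ.filter (fun a => f a = g)).card ≤ A := by
    have := h2 g hg
    rwa [Nat.card_eq_fintype_card, Fintype.card_subtype] at this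
  refine le_trans ?_ (Nat.mul_le_mul_left B h4)
  refine Finset.card_le_mul_card_image_of_maps_to (f := fun ω : α × β => ω.1)
    (fun ω hω => ?_) _ (fun a _ => ?_)
  · rw [Finset.mem_filter]
    exact ⟨Finset.mem_univ _, (Finset.mem_filter.mp hω).2⟩
  · refine le_trans ?_ (h3 a)
    rw [Nat.card_eq_fintype_card, Fintype.card_subtype]
    refine Finset.card_le_card_of_injOn (fun ω => ω.2) (fun ω hω => ?_) (fun ω hω ω' hω' h => ?_)
    · simp only [Finset.coe_filter, Finset.mem_filter, Finset.mem_univ, true_and,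
        Set.mem_setOf_eq] at hω ⊢
      rw [← hω.2]
      exact hω.1.1
    · simp only [Finset.coe_filter, Finset.mem_filter, Finset.mem_univ, true_and,
        Set.mem_setOf_eq] at hω hω'
      exact Prod.ext (hω.2.trans hω'.2.symm) h

theorem ne_mod {N R : ℕ} (hNR : N < R) (u v : ℤ) (hu : 0 ≤ u) (hu' : u ≤ N) (hv : 0 ≤ v)
    (hv' : v ≤ N) (h : ((u : ℤ) : ZMod R) = v) : u = v := by
  rw [ZMod.intCast_eq_intCast_iff_dvd_sub] at h
  have h1 : |v - u| < (R : ℤ) := by
    rw [abs_lt]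
    constructor <;> omega
  have := Int.eq_zero_of_abs_lt_dvd h h1
  omega

theorem ciii (hFIB : FIB) (hW2 : W2) (hCONV : CONV) (hCNT : CNT) : CIII := by
  intro N H R M L e H2 a b x y z hP hT hxz hB hab
  obtain ⟨ha, hb, hcop, -, -⟩ := hT
  haveI : NeZero R := ⟨hP.hR.pos.ne'⟩
  haveI : NeZero M := ⟨hP.hM.pos.ne'⟩
  have hR0 : 0 < R := hP.hR.pos
  have hM0 : 0 < M := hP.hM.pos
  have hLR : L ≤ R := le_trans (Nat.le_mul_of_pos_left L hP.hH) hP.hLR
  have hNR : N < R := by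
    have := hP.hNL
    omega
  have hEM : e ^ 2 ≤ M := by
    have h1 := hP.he
    have h2 := hP.hM1
    have h3 : 1 ≤ H2 := hP.hH.trans hP.hHH
    have h4 : L ^ 2 ≤ H2 * L ^ 2 := Nat.le_mul_of_pos_left _ h3
    omega
  have hne : ((x.1 : ZMod R) ≠ z.1 ∨ (x.2 : ZMod R) ≠ z.2) := by
    by_contra hc
    rw [not_or, not_not, not_not] at hc
    obtain ⟨hx1, hx2, hx3, hx4⟩ := hB x (by simp)
    obtain ⟨hz1, hz2, hz3, hz4⟩ := hB z (by simp)
    exact hxz (Prod.ext (ne_mod hNR _ _ hx1 hx2 hz1 hz2 hc.1)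
      (ne_mod hNR _ _ hx3 hx4 hz3 hz4 hc.2))
  -- the set of pairs in one coordinate
  let q : ZMod R × ZMod R → Prop := fun p => p.1.val < L ∧ p.2.val < L ∧
    (((a + b : ℕ)) : ℤ) ∣ (p.1.val : ℤ) - p.2.val ∧
    |(p.1.val : ℤ) - p.2.val| < ((a + b : ℕ) : ℤ) * e
  have hq : (Finset.univ.filter q).card ≤ L * (2 * e) := by
    have h1 := (hCNT R L (a + b) e hR0 (by omega) hP.he1).1
    rw [Nat.card_eq_fintype_card, Fintype.card_subtype] at h1
    exact h1
  have key := count2 (α := O1 R) (β := O2 M)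
    (fun ω => Sel L (e ^ 2) ω x ∧ Sel L (e ^ 2) ω y ∧ Sel L (e ^ 2) ω z ∧
      Kz a b (UU ω.1 x) (UU ω.1 y) (UU ω.1 z))
    (fun ω (i : Fin 8) => (lin (ω i) x, lin (ω i) z))
    (Fintype.piFinset fun _ : Fin 8 => Finset.univ.filter q) (R ^ 8) (M ^ 8 * e ^ 2)
    (by
      rintro ⟨ω, c⟩ ⟨hx, hy, hz, hk⟩
      rw [Fintype.mem_piFinset]
      intro i
      rw [Finset.mem_filter]
      refine ⟨Finset.mem_univ _, hx.1 i, hz.1 i, ?_⟩
      have h1 := hCONV M L e H2 a b c _ _ _ hP.hM1 hP.he ha hb hcop hab hx.1 hy.1 hz.1 hk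
        hx.2 hy.2 hz.2 i
      refine ⟨h1.1, ?_⟩
      have h2 := h1.2
      push_cast
      exact h2)
    (by
      intro g _
      refine le_trans (le_of_eq ?_) (hFIB R hP.hR x z hne (fun i => (g i).1) (fun i => (g i).2))
      refine Nat.card_congr (Equiv.subtypeEquivRight fun ω => ?_)
      constructor
      · intro h
        exact ⟨fun i => congrArg Prod.fst (congrFun h i), fun i => congrArg Prod.snd (congrFun h i)⟩
      · intro h
        funext i
        exact Prod.ext (h.1 i) (h.2 i))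
    (by
      intro ω
      refine le_trans ?_ ((hW2 M (e ^ 2) hP.hM hEM).1 (UU ω x))
      refine Nat.card_le_card_of_injective (Subtype.map id ?_) (Subtype.map_injective _
        Function.injective_id)
      rintro c ⟨hx, -⟩
      exact hx.2)
  have hT : (Fintype.piFinset fun _ : Fin 8 => Finset.univ.filter q).card ≤
      (L * (2 * e)) ^ 8 := by
    rw [Fintype.card_piFinset_const]
    exact Nat.pow_le_pow_left hq 8
  have key2 := key.trans (Nat.mul_le_mul_left _ hT)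
  have key3 : (Nat.card {ω : O1 R × O2 M // Sel L (e ^ 2) ω x ∧ Sel L (e ^ 2) ω y ∧
      Sel L (e ^ 2) ω z ∧ Kz a b (UU ω.1 x) (UU ω.1 y) (UU ω.1 z)} : ℝ) ≤
      ((M ^ 8 * e ^ 2 * R ^ 8 * (L * (2 * e)) ^ 8 : ℕ) : ℝ) := by exact_mod_cast key2
  refine key3.trans (le_of_eq ?_)
  have hR' : (R : ℝ) ≠ 0 := by exact_mod_cast hR0.ne'
  have hM' : (M : ℝ) ≠ 0 := by exact_mod_cast hM0.ne'
  unfold bet
  push_cast
  field_simp

end Pool.Agent.Helper15.GP
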