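import Pool.Agent.Helper89.GP.GoalsB

/-! # GP, packet XYC: injective maps and permutations -/

namespace Pool.Agent.Helper15.GP

open Finset Pool.Agent.Helper89.GP

/-- XYC. -/
theorem xyc : XycStmt := by
  intro n N Q
  let F : {s : Finset (Fin N) // s.card = n} × {σ : Equiv.Perm (Fin n) // Q fun a b => σ a < σ b} →
      {f : Fin n → Fin N // Function.Injective f ∧ Q fun a b => f a < f b} := fun p =>
    ⟨fun a => p.1.1.orderEmbOfFin p.1.2 (p.2.1 a), by
      refine ⟨fun a b hab => p.2.1.injective ((p.1.1.orderEmbOfFin p.1.2).injective hab), ?_⟩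
      have h := p.2.2
      have e : (fun a b => p.1.1.orderEmbOfFin p.1.2 (p.2.1 a) <
          p.1.1.orderEmbOfFin p.1.2 (p.2.1 b)) = fun a b => p.2.1 a < p.2.1 b := by
        funext a b
        exact propext (p.1.1.orderEmbOfFin p.1.2).lt_iff_lt
      rw [e]
      exact h⟩
  have hF : Function.Bijective F := by
    constructor
    · rintro ⟨⟨s, hs⟩, ⟨σ, hσ⟩⟩ ⟨⟨s', hs'⟩, ⟨σ', hσ'⟩⟩ h
      have h1 : (fun a => s.orderEmbOfFin hs (σ a)) = fun a => s'.orderEmbOfFin hs' (σ' a) :=
        congrArg Subtype.val h
      have h2 : s = s' := by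
        have e1 : Set.range (fun a => s.orderEmbOfFin hs (σ a)) = (s : Set (Fin N)) := by
          have : (fun a => s.orderEmbOfFin hs (σ a)) = (s.orderEmbOfFin hs) ∘ σ := rfl
          rw [this, σ.surjective.range_comp, Finset.range_orderEmbOfFin]
        have e2 : Set.range (fun a => s'.orderEmbOfFin hs' (σ' a)) = (s' : Set (Fin N)) := by
          have : (fun a => s'.orderEmbOfFin hs' (σ' a)) = (s'.orderEmbOfFin hs') ∘ σ' := rfl
          rw [this, σ'.surjective.range_comp, Finset.range_orderEmbOfFin]
        rw [h1, e2] at e1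
        exact Finset.coe_injective e1.symm
      subst h2
      have h3 : σ = σ' := by
        ext a
        have := congrFun h1 a
        exact congrArg Fin.val ((s.orderEmbOfFin hs).injective this)
      subst h3
      rfl
    · rintro ⟨f, hf, hQ⟩
      have hs : (Finset.univ.image f).card = n := by
        rw [Finset.card_image_of_injective _ hf, Finset.card_univ, Fintype.card_fin]
      set s := Finset.univ.image f with hsdef
      have hm : ∀ a, f a ∈ s := fun a => Finset.mem_image_of_mem f (Finset.mem_univ a)
      let τ : Fin n → Fin n := fun a => (s.orderIsoOfFin hs).symm ⟨f a, hm a⟩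
      have hτ : ∀ a, s.orderEmbOfFin hs (τ a) = f a := by
        intro a
        rw [← Finset.coe_orderIsoOfFin_apply, OrderIso.apply_symm_apply]
      have hinj : Function.Injective τ := by
        intro a b hab
        have : f a = f b := by rw [← hτ a, ← hτ b, hab]
        exact hf this
      let σ : Equiv.Perm (Fin n) := Equiv.ofBijective τ (Finite.injective_iff_bijective.1 hinj)
      have hσ : ∀ a, σ a = τ a := fun a => rfl
      refine ⟨⟨⟨s, hs⟩, ⟨σ, ?_⟩⟩, ?_⟩
      · have e : (fun a b => σ a < σ b) = fun a b => f a < f b := by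
          funext a b
          rw [hσ, hσ, ← hτ a, ← hτ b]
          exact propext (s.orderEmbOfFin hs).lt_iff_lt.symm
        rw [e]
        exact hQ
      · refine Subtype.ext ?_
        funext a
        exact hτ a
  rw [← Nat.card_congr (Equiv.ofBijective F hF), Nat.card_prod]
  congr 1
  rw [Nat.card_eq_fintype_card, Fintype.card_finset_len, Fintype.card_fin]

end Pool.Agent.Helper15.GP
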